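import Pool.Agent.Y920.JB.Stm4

/-! # Open subgroups, versions without the G_δ condition (proofs of helper74 and helper390) -/

set_option autoImplicit false

open Topology Filter MeasureTheory

namespace Pool.Agent.Y920.JB

/-- The proof of helper74, without the G_δ condition. -/
theorem t_COS1p : S_COS1p := by
  intro G _ _ _ _ _ _ K hK hD
  obtain ⟨A, B, hAB, hM, hN⟩ := hD
  let r : G → G := fun x => Quotient.out (QuotientAddGroup.mk x : G ⧸ K)
  have hr1 : ∀ x, x - r x ∈ K := by
    intro x
    have h1 : (QuotientAddGroup.mk (r x) : G ⧸ K) = QuotientAddGroup.mk x :=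
      QuotientAddGroup.out_eq' _
    have h2 := QuotientAddGroup.eq.1 h1
    have h3 : x - r x = - r x + x := by abel
    rw [h3]
    exact h2
  have hdisc : DiscreteTopology (G ⧸ K) := QuotientAddGroup.discreteTopology hK
  have hrc : Continuous r :=
    (continuous_of_discreteTopology (f := fun q : G ⧸ K => Quotient.out q)).comp
      QuotientAddGroup.continuous_mk
  let φ : G → K := fun x => ⟨x - r x, hr1 x⟩
  have hφ : Continuous φ := (continuous_id.sub hrc).subtype_mk _
  have hφm : Measurable φ := hφ.measurable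
  have hadd : ∀ (k : K) (g : G), φ ((k : G) + g) = k + φ g := by
    intro k g
    have h1 : (QuotientAddGroup.mk ((k : G) + g) : G ⧸ K) = QuotientAddGroup.mk g := by
      rw [QuotientAddGroup.eq]
      have : -((k : G) + g) + g = -(k : G) := by abel
      rw [this]
      exact K.neg_mem k.2
    have h2 : r ((k : G) + g) = r g := by
      show Quotient.out (QuotientAddGroup.mk ((k : G) + g) : G ⧸ K) = _
      rw [h1]
    apply Subtype.ext
    show (k : G) + g - r ((k : G) + g) = (k : G) + (g - r g)
    rw [h2]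
    abel
  refine ⟨φ ⁻¹' A, φ ⁻¹' B, by rw [← Set.preimage_union, hAB, Set.preimage_univ], ?_, ?_⟩
  · obtain ⟨C, hC, hBC, L, tL, hL1, hL2, hL3, f, hf, hfm⟩ := hM
    refine ⟨φ ⁻¹' C, hC.preimage hφm, fun x hx => hBC hx, L, tL, hL1, hL2, hL3,
      fun t => (f t : G), continuous_subtype_val.comp hf, ?_⟩
    intro g
    have h1 := hfm (φ g)
    have h2 : (fun t => (f t : G)) ⁻¹' ((fun x => x + g) ⁻¹' (φ ⁻¹' C)) =
        f ⁻¹' ((fun x => x + φ g) ⁻¹' C) := by
      ext t
      simp only [Set.mem_preimage]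
      rw [hadd]
    rw [h2]
    exact h1
  · obtain ⟨C, hC, hBC, μ, hμ, hμ0⟩ := hN
    have hmap : IsProbabilityMeasure (μ.map (Subtype.val : K → G)) :=
      Measure.isProbabilityMeasure_map measurable_subtype_coe.aemeasurable
    refine ⟨φ ⁻¹' C, hC.preimage hφm, fun x hx => hBC hx, μ.map (Subtype.val : K → G), hmap, ?_⟩
    intro g
    have hmeas : MeasurableSet ((fun x : G => x + g) ⁻¹' (φ ⁻¹' C)) :=
      (hC.preimage hφm).preimage (continuous_id.add continuous_const).measurable
    rw [Measure.map_apply measurable_subtype_coe hmeas]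
    have h2 : (Subtype.val : K → G) ⁻¹' ((fun x => x + g) ⁻¹' (φ ⁻¹' C)) =
        (fun x => x + φ g) ⁻¹' C := by
      ext t
      simp only [Set.mem_preimage]
      rw [hadd]
    rw [h2]
    exact hμ0 _


/-- The proof of helper390, without the G_δ condition. -/
theorem t_COS2p : S_COS2p := by
  intro G _ _ _ _ _ _ K hK hdec
  obtain ⟨A, B, hAB, hmea, hnull⟩ := hdec
  have hKc : IsClosed (K : Set G) := K.isClosed_of_isOpen hK
  refine ⟨(Subtype.val : K → G) ⁻¹' A, (Subtype.val : K → G) ⁻¹' B,
    by rw [← Set.preimage_union, hAB, Set.preimage_univ], ?_, ?_⟩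
  · obtain ⟨C, hC, hBC, T, _, _, _, ⟨t0⟩, f, hf, hfC⟩ := hmea
    refine ⟨(Subtype.val : K → G) ⁻¹' C, hC.preimage measurable_subtype_coe,
      fun x hx => hBC hx, ?_⟩
    have hopen : IsOpen {t : T | f t - f t0 ∈ K} := hK.preimage (hf.sub continuous_const)
    have hclosed : IsClosed {t : T | f t - f t0 ∈ K} := hKc.preimage (hf.sub continuous_const)
    refine ⟨{t : T | f t - f t0 ∈ K}, inferInstance, isCompact_iff_compactSpace.1 hclosed.isCompact,
      IsEmbedding.subtypeVal.metrizableSpace, ⟨⟨t0, by simp⟩⟩,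
      fun t => ⟨f t.1 - f t0, t.2⟩,
      Continuous.subtype_mk ((hf.comp continuous_subtype_val).sub continuous_const) _, ?_⟩
    intro k
    have h1 := (hfC ((k : G) - f t0)).preimage_of_isOpenMap
      (f := (Subtype.val : {t : T | f t - f t0 ∈ K} → T)) continuous_subtype_val
      hopen.isOpenMap_subtype_val
    convert h1 using 1
    ext t
    simp only [Set.mem_preimage, AddSubgroup.coe_add]
    have e : f t.1 - f t0 + (k : G) = f t.1 + ((k : G) - f t0) := by abel
    rw [e]
  · obtain ⟨C, hC, hBC, μ, hμ, hμC⟩ := hnull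
    refine ⟨(Subtype.val : K → G) ⁻¹' C, hC.preimage measurable_subtype_coe,
      fun x hx => hBC hx, ?_⟩
    let d : ℕ → G := TopologicalSpace.denseSeq G
    have hd : DenseRange d := TopologicalSpace.denseRange_denseSeq G
    have hex : ∃ n, μ {x | x - d n ∈ K} ≠ 0 := by
      by_contra hcon
      push Not at hcon
      have h1 : (⋃ n, {x | x - d n ∈ K}) = Set.univ := by
        ext x
        simp only [Set.mem_iUnion, Set.mem_univ, iff_true]
        have ho : IsOpen {y : G | x - y ∈ K} := hK.preimage (continuous_const.sub continuous_id)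
        obtain ⟨n, hn⟩ := hd.exists_mem_open ho ⟨x, by simp⟩
        exact ⟨n, hn⟩
      have h2 : μ (⋃ n, {x | x - d n ∈ K}) = 0 := measure_iUnion_null hcon
      rw [h1, measure_univ] at h2
      exact one_ne_zero h2
    obtain ⟨n, hn⟩ := hex
    obtain ⟨g0, hg0⟩ : ∃ g0, g0 = d n := ⟨_, rfl⟩
    rw [← hg0] at hn
    let φ : K → G := fun k => (k : G) + g0
    have hφ : MeasurableEmbedding φ :=
      (Homeomorph.addRight g0).measurableEmbedding.comp (MeasurableEmbedding.subtype_coe hK.measurableSet)
    have himg : φ '' Set.univ = {x | x - g0 ∈ K} := by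
      ext x
      constructor
      · rintro ⟨k, -, rfl⟩
        show (k : G) + g0 - g0 ∈ K
        rw [add_sub_cancel_right]
        exact k.2
      · intro hx
        exact ⟨⟨x - g0, hx⟩, trivial, sub_add_cancel x g0⟩
    refine ⟨(μ {x | x - g0 ∈ K})⁻¹ • μ.comap φ, ⟨?_⟩, fun k => ?_⟩
    · rw [Measure.smul_apply, hφ.comap_apply, himg, smul_eq_mul]
      exact ENNReal.inv_mul_cancel hn (measure_ne_top _ _)
    · rw [Measure.smul_apply, hφ.comap_apply]
      have h1 : μ (φ '' ((fun x => x + k) ⁻¹' ((Subtype.val : K → G) ⁻¹' C))) = 0 := by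
        refine measure_mono_null ?_ (hμC ((k : G) - g0))
        rintro _ ⟨y, hy, rfl⟩
        show (y : G) + g0 + ((k : G) - g0) ∈ C
        have e : (y : G) + g0 + ((k : G) - g0) = (y : G) + (k : G) := by abel
        rw [e]
        exact hy
      rw [h1, smul_zero]


end Pool.Agent.Y920.JB
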