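import Pool.Agent.Y920.JB.Stm4

set_option autoImplicit false

open Topology Filter MeasureTheory CategoryTheory

namespace Pool.Agent.Y920.JB

theorem t_EXT : S_EXT := by
  intro G _ _ _ K hK χ hχ
  have hmono : Mono (AddCommGrpCat.ofHom K.subtype) :=
    (AddCommGrpCat.mono_iff_injective _).2 K.subtype_injective
  have hinj : Injective (AddCommGrpCat.of UnitAddCircle) :=
    AddCommGrpCat.injective_of_divisible (A := UnitAddCircle)
  obtain ⟨h, hh⟩ := Injective.factors (AddCommGrpCat.ofHom χ) (AddCommGrpCat.ofHom K.subtype)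
  have hk : ∀ k : K, h.hom (k : G) = χ k := by
    intro k
    have := congrArg (fun m => (AddCommGrpCat.Hom.hom m) k) hh
    simpa using this
  refine ⟨h.hom, ?_, hk⟩
  refine continuous_of_continuousAt_zero h.hom ?_
  have h1 : ContinuousAt (h.hom ∘ (Subtype.val : K → G)) 0 := by
    have : (h.hom ∘ (Subtype.val : K → G)) = χ := by
      ext k
      exact hk k
    rw [this]
    exact hχ.continuousAt
  exact (hK.isOpenEmbedding_subtypeVal.continuousAt_iff).1 h1

end Pool.Agent.Y920.JB
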