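import Pool.Agent.Y920.JB.Red
import Pool.Agent.Y475.JB.CONV
import Pool.Agent.Y888.JB.MEA
import Pool.Agent.Y404.JB.REC
import Pool.Agent.Y542.JB.UNI
import Pool.Agent.Y406.JB.AMP
import Pool.Agent.Y306.JB.OPEN
import Pool.Agent.Y702.JB.CHAR

set_option autoImplicit false

open Topology Filter MeasureTheory Finset

namespace Pool.Agent.Y920.JB

theorem dec_of_lev (G : Type) [TopologicalSpace G] [AddCommGroup G] [IsTopologicalAddGroup G]
    [PolishSpace G] [MeasurableSpace G] [BorelSpace G] (h : ∀ U ∈ 𝓝 (0 : G), Lev G (3 / 4) U) :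
    Dec G :=
  decomp Pool.Agent.Y404.JB.t_REC Pool.Agent.Y475.JB.t_CONV Pool.Agent.Y542.JB.t_UNI
    Pool.Agent.Y888.JB.t_MEA Pool.Agent.Y406.JB.t_AMP G h

theorem dec_char (G : Type) [TopologicalSpace G] [AddCommGroup G] [IsTopologicalAddGroup G]
    [PolishSpace G] [MeasurableSpace G] [BorelSpace G] (h : ¬ IsOpen (vnKernel G : Set G)) :
    Dec G := by
  refine dec_of_lev G (lev_char Pool.Agent.Y306.JB.t_OPEN Pool.Agent.Y702.JB.t_CHAR G ?_)
  intro h'
  apply h
  convert h' using 1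
  ext x
  exact mem_vnKernel

theorem dec_open (G : Type) [TopologicalSpace G] [AddCommGroup G] [IsTopologicalAddGroup G]
    [PolishSpace G] [MeasurableSpace G] [BorelSpace G]
    (h : ¬ IsOpen {x : G | ∀ H : AddSubgroup G, IsOpen (H : Set G) → x ∈ H}) :
    Dec G :=
  dec_of_lev G (lev_open Pool.Agent.Y306.JB.t_OPEN G h)

theorem dec_sep (G : Type) [TopologicalSpace G] [AddCommGroup G] [IsTopologicalAddGroup G]
    [PolishSpace G] [MeasurableSpace G] [BorelSpace G] (hG : Uncountable G)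
    (h : ∀ x : G, x ≠ 0 → (∃ χ : G →+ UnitAddCircle, Continuous χ ∧ χ x ≠ 0) ∨
        ∃ H : AddSubgroup G, IsOpen (H : Set G) ∧ x ∉ H) :
    Dec G := by
  refine dec_of_lev G (lev_both Pool.Agent.Y306.JB.t_OPEN Pool.Agent.Y702.JB.t_CHAR G ?_)
  intro h'
  apply not_open_zero G hG
  convert h' using 1
  ext x
  constructor
  · rintro rfl
    exact ⟨fun χ _ => map_zero χ, fun H _ => H.zero_mem⟩
  · rintro ⟨h1, h2⟩
    by_contra hx
    rcases h x hx with ⟨χ, hχ, hne⟩ | ⟨H, hH, hne⟩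
    · exact hne (h1 χ hχ)
    · exact hne (h2 H hH)

end Pool.Agent.Y920.JB
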