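import Pool.Agent.Y920.JB.Stm

set_option autoImplicit false

open Topology Filter MeasureTheory Finset

namespace Pool.Agent.Y920.JB

/-- Haar meager (Darji): a Borel hull `C`, a nonempty compact metrizable space `K` and a continuous
map `f : K → G` such that all translates of `C` have meager preimages. -/
def HaarMeager {G : Type} [AddCommGroup G] [TopologicalSpace G] [MeasurableSpace G]
    (A : Set G) : Prop :=
  ∃ C : Set G, MeasurableSet C ∧ A ⊆ C ∧
    ∃ (K : Type) (_ : TopologicalSpace K),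
      CompactSpace K ∧ TopologicalSpace.MetrizableSpace K ∧ Nonempty K ∧
      ∃ f : K → G, Continuous f ∧ ∀ g : G, IsMeagre (f ⁻¹' ((fun x => x + g) ⁻¹' C))

/-- Haar null (Christensen): a Borel hull `C` and a Borel probability measure which vanishes on all
translates of `C`. -/
def HaarNull {G : Type} [AddCommGroup G] [MeasurableSpace G] (A : Set G) : Prop :=
  ∃ C : Set G, MeasurableSet C ∧ A ⊆ C ∧
    ∃ μ : Measure G, IsProbabilityMeasure μ ∧ ∀ g : G, μ ((fun x => x + g) ⁻¹' C) = 0

theorem decomp (hREC : S_REC) (hCONV : S_CONV) (hUNI : S_UNI) (hMEA : S_MEA) (hAMP : S_AMP)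
    (G : Type) [TopologicalSpace G] [AddCommGroup G] [IsTopologicalAddGroup G] [PolishSpace G]
    [MeasurableSpace G] [BorelSpace G] (h : ∀ U ∈ 𝓝 (0 : G), Lev G (3 / 4) U) :
    ∃ B : Set G, IsGδ B ∧ HaarMeager Bᶜ ∧ HaarNull B := by
  letI := TopologicalSpace.upgradeIsCompletelyMetrizable G
  obtain ⟨a, b, f, d, S, T, hS, hTc, hT0, hf, hd, hdf, hdd, hk, hc⟩ :=
    hREC G (hAMP G (3 / 4) (by norm_num) (by norm_num) h)
  obtain ⟨Φ, hΦc, hΦ⟩ := hCONV G a f T hTc hT0 hf hdf
  obtain ⟨Ψ, hΨc, hΨ⟩ := hCONV G b d T hTc hT0 hd hdd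
  have hBeq : {x : G | ∃ᶠ n in atTop, x ∈ S n} = ⋂ m : ℕ, ⋃ n : ℕ, ⋃ _ : m ≤ n, S n := by
    ext x
    simp only [Set.mem_setOf_eq, frequently_atTop, Set.mem_iInter, Set.mem_iUnion, exists_prop]
  have hG : IsGδ {x : G | ∃ᶠ n in atTop, x ∈ S n} := by
    rw [hBeq]
    exact IsGδ.iInter_of_isOpen fun m => isOpen_iUnion fun n => isOpen_iUnion fun _ => hS n
  refine ⟨{x : G | ∃ᶠ n in atTop, x ∈ S n}, hG, ?_, ?_⟩
  · refine ⟨_, hG.measurableSet.compl, subset_rfl, ∀ n, Fin (b n + 1), inferInstance,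
      inferInstance, inferInstance, inferInstance, Ψ, hΨc, ?_⟩
    intro g
    have h1 := hMEA b (fun n => {w | Ψ w + g ∈ S n})
      (fun n => (hS n).preimage (hΨc.add continuous_const)) ?_
    · convert h1 using 1
      ext w
      simp only [Set.mem_preimage, Set.mem_compl_iff, Set.mem_setOf_eq, not_frequently,
        eventually_atTop, ge_iff_le]
    · intro n w
      obtain ⟨k, hk'⟩ := hk n ((∑ i ∈ range n, d i (w i)) + g)
      refine ⟨k, ?_⟩
      intro w' hw' hwn
      obtain ⟨v, hv, hv'⟩ := hΨ w' n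
      have h2 : ∑ i ∈ range (n + 1), d i (w' i) = (∑ i ∈ range n, d i (w i)) + d n k := by
        rw [Finset.sum_range_succ, hwn]
        congr 1
        refine Finset.sum_congr rfl fun i hi => ?_
        rw [hw' i (Finset.mem_range.1 hi)]
      have h3 := hk' v hv
      simp only [Set.mem_setOf_eq]
      rw [hv', h2]
      convert h3 using 1
      abel
  · obtain ⟨ν, hν, hν'⟩ := hUNI a
    have hmap : IsProbabilityMeasure (ν.map Φ) :=
      Measure.isProbabilityMeasure_map hΦc.measurable.aemeasurable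
    refine ⟨_, hG.measurableSet, subset_rfl, ν.map Φ, hmap, ?_⟩
    intro g
    have hmeas : MeasurableSet ((fun x : G => x + g) ⁻¹' {x : G | ∃ᶠ n in atTop, x ∈ S n}) :=
      hG.measurableSet.preimage (continuous_id.add continuous_const).measurable
    rw [Measure.map_apply hΦc.measurable hmeas]
    have hbd : ∀ n, ν {w | Φ w + g ∈ S n} ≤ ENNReal.ofReal ((1 / 2) ^ n) := by
      intro n
      refine hν' n ((1 / 2) ^ n) _
        ((hS n).preimage (hΦc.add continuous_const)).measurableSet ?_
      intro w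
      refine le_trans ?_ (hc n ((∑ i ∈ range n, f i (w i)) + g))
      have hinj : Nat.card {j : Fin (a n + 1) // Function.update w n j ∈ {w | Φ w + g ∈ S n}} ≤
          Nat.card {i : Fin (a n + 1) // ∃ v ∈ T n,
            (∑ i ∈ range n, f i (w i)) + g + f n i + v ∈ S n} := by
        refine Nat.card_le_card_of_injective (Subtype.map id ?_)
          (Subtype.map_injective _ Function.injective_id)
        intro j hj
        obtain ⟨v, hv, hv'⟩ := hΦ (Function.update w n j) n
        refine ⟨v, hv, ?_⟩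
        have h2 : ∑ i ∈ range (n + 1), f i (Function.update w n j i) =
            (∑ i ∈ range n, f i (w i)) + f n j := by
          rw [Finset.sum_range_succ, Function.update_self]
          congr 1
          refine Finset.sum_congr rfl fun i hi => ?_
          rw [Function.update_of_ne (Finset.mem_range.1 hi).ne]
        have hj' : Φ (Function.update w n j) + g ∈ S n := hj
        rw [hv', h2] at hj'
        convert hj' using 1
        simp only [id]
        abel
      exact_mod_cast hinj
    have hsum : ∑' n, ν {w | Φ w + g ∈ S n} ≠ ⊤ := by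
      refine ne_top_of_le_ne_top ?_ (ENNReal.tsum_le_tsum hbd)
      rw [← ENNReal.ofReal_tsum_of_nonneg (fun n => by positivity)
        (summable_geometric_of_lt_one (by norm_num) (by norm_num))]
      exact ENNReal.ofReal_ne_top
    exact measure_setOf_frequently_eq_zero hsum

/-- kernels -/
theorem lev_char (hOPEN : S_OPEN) (hCHAR : S_CHAR) (G : Type) [TopologicalSpace G]
    [AddCommGroup G] [IsTopologicalAddGroup G]
    (h : ¬ IsOpen {x : G | ∀ χ : G →+ UnitAddCircle, Continuous χ → χ x = 0}) :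
    ∀ U ∈ 𝓝 (0 : G), Lev G (3 / 4) U := by
  intro U hU
  have hU' : U ∩ -U ∈ 𝓝 (0 : G) := inter_mem hU (by
    have := (continuous_neg (G := G)).tendsto 0
    rw [neg_zero] at this
    exact this hU)
  let K : AddSubgroup G := ⨅ χ : {χ : G →+ UnitAddCircle // Continuous χ}, χ.1.ker
  have hK : {x : G | ∀ χ : G →+ UnitAddCircle, Continuous χ → χ x = 0} = (K : Set G) := by
    ext x
    simp [K, AddSubgroup.mem_iInf, AddMonoidHom.mem_ker]
  have hsub : ¬ (U ∩ -U ⊆ (K : Set G)) := fun hs =>
    h (by rw [hK]; exact K.isOpen_of_mem_nhds (mem_of_superset hU' hs))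
  obtain ⟨u, huU, huK⟩ := Set.not_subset.1 hsub
  rw [← hK] at huK
  simp only [Set.mem_setOf_eq, not_forall] at huK
  obtain ⟨χ, hχ, hχu⟩ := huK
  by_cases ho : IsOpen (χ.ker : Set G)
  · exact hOPEN G χ.ker ho u (by rwa [AddMonoidHom.mem_ker]) U (mem_of_mem_nhds hU) huU.1
      (by simpa using huU.2)
  · exact hCHAR G χ hχ ho U hU

/-- open subgroups -/
theorem lev_open (hOPEN : S_OPEN) (G : Type) [TopologicalSpace G]
    [AddCommGroup G] [IsTopologicalAddGroup G]
    (h : ¬ IsOpen {x : G | ∀ H : AddSubgroup G, IsOpen (H : Set G) → x ∈ H}) :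
    ∀ U ∈ 𝓝 (0 : G), Lev G (3 / 4) U := by
  intro U hU
  have hU' : U ∩ -U ∈ 𝓝 (0 : G) := inter_mem hU (by
    have := (continuous_neg (G := G)).tendsto 0
    rw [neg_zero] at this
    exact this hU)
  let K : AddSubgroup G := ⨅ H : {H : AddSubgroup G // IsOpen (H : Set G)}, H.1
  have hK : {x : G | ∀ H : AddSubgroup G, IsOpen (H : Set G) → x ∈ H} = (K : Set G) := by
    ext x
    simp [K, AddSubgroup.mem_iInf]
  have hsub : ¬ (U ∩ -U ⊆ (K : Set G)) := fun hs =>
    h (by rw [hK]; exact K.isOpen_of_mem_nhds (mem_of_superset hU' hs))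
  obtain ⟨u, huU, huK⟩ := Set.not_subset.1 hsub
  rw [← hK] at huK
  simp only [Set.mem_setOf_eq, not_forall] at huK
  obtain ⟨H, hH, hHu⟩ := huK
  exact hOPEN G H hH u hHu U (mem_of_mem_nhds hU) huU.1 (by simpa using huU.2)

end Pool.Agent.Y920.JB
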