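import Pool.Agent.Y920.JB.Fin

set_option autoImplicit false

open Topology Filter MeasureTheory Finset

namespace Pool.Agent.Y920.JB

/-- characters and open subgroups -/
theorem lev_both (hOPEN : S_OPEN) (hCHAR : S_CHAR) (G : Type) [TopologicalSpace G]
    [AddCommGroup G] [IsTopologicalAddGroup G]
    (h : ¬ IsOpen {x : G | (∀ χ : G →+ UnitAddCircle, Continuous χ → χ x = 0) ∧
      ∀ H : AddSubgroup G, IsOpen (H : Set G) → x ∈ H}) :
    ∀ U ∈ 𝓝 (0 : G), Lev G (3 / 4) U := by
  intro U hU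
  have hU' : U ∩ -U ∈ 𝓝 (0 : G) := inter_mem hU (by
    have := (continuous_neg (G := G)).tendsto 0
    rw [neg_zero] at this
    exact this hU)
  let K1 : AddSubgroup G := ⨅ χ : {χ : G →+ UnitAddCircle // Continuous χ}, χ.1.ker
  let K2 : AddSubgroup G := ⨅ H : {H : AddSubgroup G // IsOpen (H : Set G)}, H.1
  let K : AddSubgroup G := K1 ⊓ K2
  have hK : {x : G | (∀ χ : G →+ UnitAddCircle, Continuous χ → χ x = 0) ∧
      ∀ H : AddSubgroup G, IsOpen (H : Set G) → x ∈ H} = (K : Set G) := by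
    ext x
    simp [K, K1, K2, AddSubgroup.mem_inf, AddMonoidHom.mem_ker]
  have hsub : ¬ (U ∩ -U ⊆ (K : Set G)) := fun hs =>
    h (by rw [hK]; exact K.isOpen_of_mem_nhds (mem_of_superset hU' hs))
  obtain ⟨u, huU, huK⟩ := Set.not_subset.1 hsub
  rw [← hK] at huK
  have h1 : (∃ χ : G →+ UnitAddCircle, Continuous χ ∧ χ u ≠ 0) ∨
      ∃ H : AddSubgroup G, IsOpen (H : Set G) ∧ u ∉ H := by
    by_contra hno
    push Not at hno
    exact huK ⟨hno.1, hno.2⟩
  rcases h1 with ⟨χ, hχ, hχu⟩ | ⟨H, hH, hHu⟩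
  · by_cases ho : IsOpen (χ.ker : Set G)
    · exact hOPEN G χ.ker ho u (by rwa [AddMonoidHom.mem_ker]) U (mem_of_mem_nhds hU) huU.1
        (by simpa using huU.2)
    · exact hCHAR G χ hχ ho U hU
  · exact hOPEN G H hH u hHu U (mem_of_mem_nhds hU) huU.1 (by simpa using huU.2)

theorem not_open_zero (G : Type) [TopologicalSpace G] [AddCommGroup G] [IsTopologicalAddGroup G]
    [PolishSpace G] (hG : Uncountable G) : ¬ IsOpen ({0} : Set G) := by
  intro h
  have h1 : DiscreteTopology G := discreteTopology_of_isOpen_singleton_zero h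
  have h2 : Countable G := TopologicalSpace.separableSpace_iff_countable.1 inferInstance
  exact not_countable h2

end Pool.Agent.Y920.JB
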