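import Pool.Agent.Y920.JB.Stm4

set_option autoImplicit false

open Topology Filter MeasureTheory Finset

namespace Pool.Agent.Y920.JB

/-- The von Neumann kernel: the common kernel of all continuous characters. -/
def vnKernel (G : Type) [AddCommGroup G] [TopologicalSpace G] : AddSubgroup G :=
  ⨅ χ : {χ : G →+ UnitAddCircle // Continuous χ}, χ.1.ker

theorem mem_vnKernel {G : Type} [AddCommGroup G] [TopologicalSpace G] {x : G} :
    x ∈ vnKernel G ↔ ∀ χ : G →+ UnitAddCircle, Continuous χ → χ x = 0 := by
  simp [vnKernel, AddSubgroup.mem_iInf, AddMonoidHom.mem_ker]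

/-- Minimally almost periodic: no nontrivial continuous characters. -/
def MinAP (G : Type) [AddCommGroup G] [TopologicalSpace G] : Prop :=
  ∀ χ : G →+ UnitAddCircle, Continuous χ → ∀ x, χ x = 0

theorem minAP_vnKernel (hEXT : S_EXT) (G : Type) [TopologicalSpace G] [AddCommGroup G]
    [IsTopologicalAddGroup G] (h : IsOpen (vnKernel G : Set G)) : MinAP (vnKernel G) := by
  intro χ hχ x
  obtain ⟨ψ, hψ, hψ'⟩ := hEXT G (vnKernel G) h χ hχ
  rw [← hψ' x]
  exact mem_vnKernel.1 x.2 ψ hψ

theorem polish_of_open (G : Type) [TopologicalSpace G] [AddCommGroup G]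
    [IsTopologicalAddGroup G] [PolishSpace G] (K : AddSubgroup G) (h : IsOpen (K : Set G)) :
    PolishSpace K :=
  (K.isClosed_of_isOpen h).polishSpace

theorem uncountable_of_open (G : Type) [TopologicalSpace G] [AddCommGroup G]
    [IsTopologicalAddGroup G] [PolishSpace G] (hG : Uncountable G) (K : AddSubgroup G)
    (h : IsOpen (K : Set G)) : Uncountable K := by
  by_contra hK
  rw [not_uncountable_iff] at hK
  have hd : DiscreteTopology (G ⧸ K) := QuotientAddGroup.discreteTopology h
  have hsep : TopologicalSpace.SeparableSpace (G ⧸ K) :=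
    (QuotientAddGroup.mk_surjective (s := K)).denseRange.separableSpace
      QuotientAddGroup.continuous_mk
  have hc : Countable (G ⧸ K) := TopologicalSpace.separableSpace_iff_countable.1 hsep
  have : Countable ((G ⧸ K) × K) := inferInstance
  have h2 : Countable G :=
    (AddSubgroup.addGroupEquivQuotientProdAddSubgroup (s := K)).injective.countable
  exact not_countable h2

theorem dec0_of_dec {G : Type} [AddCommGroup G] [TopologicalSpace G] [MeasurableSpace G]
    (h : Dec G) : Dec0 G := by
  obtain ⟨B, -, h1, h2⟩ := h
  exact ⟨Bᶜ, B, Set.compl_union_self B, h1, h2⟩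

/-- The question for all uncountable abelian Polish groups is equivalent to the question for the
minimally almost periodic ones. -/
theorem reduction (hEXT : S_EXT) (hCOS1 : S_COS1p)
    (hmain : ∀ (G : Type) [TopologicalSpace G] [AddCommGroup G] [IsTopologicalAddGroup G]
      [PolishSpace G] [MeasurableSpace G] [BorelSpace G],
      ¬ IsOpen (vnKernel G : Set G) → Dec G)
    (hmap : ∀ (G : Type) [TopologicalSpace G] [AddCommGroup G] [IsTopologicalAddGroup G]
      [PolishSpace G] [MeasurableSpace G] [BorelSpace G], Uncountable G → MinAP G → Dec0 G)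
    (G : Type) [TopologicalSpace G] [AddCommGroup G] [IsTopologicalAddGroup G]
    [PolishSpace G] [MeasurableSpace G] [BorelSpace G] (hG : Uncountable G) : Dec0 G := by
  by_cases h : IsOpen (vnKernel G : Set G)
  · have := polish_of_open G _ h
    exact hCOS1 G (vnKernel G) h
      (hmap (vnKernel G) (uncountable_of_open G hG _ h) (minAP_vnKernel hEXT G h))
  · exact dec0_of_dec (hmain G h)

end Pool.Agent.Y920.JB
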