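import Mathlib

/-!
# Haar meager plus Haar null decompositions of abelian Polish groups: statements of the parts
-/

set_option autoImplicit false

open Topology Filter MeasureTheory Finset

namespace Pool.Agent.Y920.JB

/-- One level: finitely many shifts `f i`, `d k` in `U` and an open set `S` such that every point is
moved into `S` by some `d k`, robustly, but only a proportion `c` of the `f i` moves it near `S`. -/
def Lev (G : Type) [AddCommGroup G] [TopologicalSpace G] (c : ℝ) (U : Set G) : Prop :=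
  ∃ (a b : ℕ) (f : Fin (a + 1) → G) (d : Fin (b + 1) → G) (S V : Set G),
    IsOpen S ∧ V ∈ 𝓝 (0 : G) ∧ (∀ i, f i ∈ U) ∧ (∀ k, d k ∈ U) ∧
    (∀ x : G, ∃ k, ∀ v ∈ V, x + d k + v ∈ S) ∧
    (∀ x : G, (Nat.card {i : Fin (a + 1) // ∃ v ∈ V, x + f i + v ∈ S} : ℝ) ≤ c * (a + 1))

/-- amplification -/
def S_AMP : Prop :=
  ∀ (G : Type) [AddCommGroup G] [TopologicalSpace G] [IsTopologicalAddGroup G] (c : ℝ),
    0 ≤ c → c < 1 → (∀ U ∈ 𝓝 (0 : G), Lev G c U) → ∀ ε : ℝ, 0 < ε → ∀ U ∈ 𝓝 (0 : G), Lev G ε U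

/-- an open subgroup -/
def S_OPEN : Prop :=
  ∀ (G : Type) [AddCommGroup G] [TopologicalSpace G] [IsTopologicalAddGroup G]
    (H : AddSubgroup G), IsOpen (H : Set G) → ∀ u : G, u ∉ H → ∀ U : Set G, (0 : G) ∈ U → u ∈ U →
    -u ∈ U → Lev G (3 / 4) U

/-- a character whose kernel is not open -/
def S_CHAR : Prop :=
  ∀ (G : Type) [AddCommGroup G] [TopologicalSpace G] [IsTopologicalAddGroup G]
    (χ : G →+ UnitAddCircle), Continuous χ → ¬ IsOpen (χ.ker : Set G) →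
    ∀ U ∈ 𝓝 (0 : G), Lev G (3 / 4) U

/-- the sequence of levels -/
def S_REC : Prop :=
  ∀ (G : Type) [AddCommGroup G] [MetricSpace G] [IsTopologicalAddGroup G],
    (∀ ε : ℝ, 0 < ε → ∀ U ∈ 𝓝 (0 : G), Lev G ε U) →
    ∃ (a b : ℕ → ℕ) (f : ∀ n, Fin (a n + 1) → G) (d : ∀ n, Fin (b n + 1) → G)
      (S T : ℕ → Set G),
      (∀ n, IsOpen (S n)) ∧ (∀ n, IsClosed (T n)) ∧ (∀ n, (0 : G) ∈ T n) ∧
      (∀ n j, ∀ t ∈ T (n + 1), f (n + 1) j + t ∈ T n) ∧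
      (∀ n j, ∀ t ∈ T (n + 1), d (n + 1) j + t ∈ T n) ∧
      (∀ (w : ∀ n, Fin (a n + 1)) (n : ℕ),
        dist (∑ i ∈ range (n + 1), f i (w i)) (∑ i ∈ range (n + 2), f i (w i)) ≤ (1 / 2) ^ n) ∧
      (∀ (w : ∀ n, Fin (b n + 1)) (n : ℕ),
        dist (∑ i ∈ range (n + 1), d i (w i)) (∑ i ∈ range (n + 2), d i (w i)) ≤ (1 / 2) ^ n) ∧
      (∀ n (x : G), ∃ k, ∀ v ∈ T n, x + d n k + v ∈ S n) ∧
      (∀ n (x : G), (Nat.card {i : Fin (a n + 1) // ∃ v ∈ T n, x + f n i + v ∈ S n} : ℝ) ≤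
        (1 / 2) ^ n * (a n + 1))

/-- convergence of the sums -/
def S_CONV : Prop :=
  ∀ (G : Type) [AddCommGroup G] [MetricSpace G] [CompleteSpace G] [IsTopologicalAddGroup G]
    (a : ℕ → ℕ) (f : ∀ n, Fin (a n + 1) → G) (T : ℕ → Set G),
    (∀ n, IsClosed (T n)) → (∀ n, (0 : G) ∈ T n) →
    (∀ n j, ∀ t ∈ T (n + 1), f (n + 1) j + t ∈ T n) →
    (∀ (w : ∀ n, Fin (a n + 1)) (n : ℕ),
        dist (∑ i ∈ range (n + 1), f i (w i)) (∑ i ∈ range (n + 2), f i (w i)) ≤ (1 / 2) ^ n) →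
    ∃ Φ : (∀ n, Fin (a n + 1)) → G, Continuous Φ ∧
      ∀ (w : ∀ n, Fin (a n + 1)) (n : ℕ), ∃ v ∈ T n, Φ w = (∑ i ∈ range (n + 1), f i (w i)) + v

/-- the uniform measure -/
def S_UNI : Prop :=
  ∀ a : ℕ → ℕ, ∃ μ : Measure (∀ n, Fin (a n + 1)), IsProbabilityMeasure μ ∧
    ∀ (n : ℕ) (c : ℝ) (E : Set (∀ n, Fin (a n + 1))), MeasurableSet E →
      (∀ w : ∀ n, Fin (a n + 1),
        (Nat.card {j : Fin (a n + 1) // Function.update w n j ∈ E} : ℝ) ≤ c * (a n + 1)) →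
      μ E ≤ ENNReal.ofReal c

/-- the category part -/
def S_MEA : Prop :=
  ∀ (b : ℕ → ℕ) (E : ℕ → Set (∀ n, Fin (b n + 1))), (∀ n, IsOpen (E n)) →
    (∀ (n : ℕ) (w : ∀ n, Fin (b n + 1)), ∃ k, ∀ w' : ∀ n, Fin (b n + 1),
      (∀ i < n, w' i = w i) → w' n = k → w' ∈ E n) →
    IsMeagre {w | ∃ m, ∀ n ≥ m, w ∉ E n}

end Pool.Agent.Y920.JB
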