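import Pool.Agent.Y920.JB.Fin2

set_option autoImplicit false

open Topology Filter MeasureTheory Finset

namespace Pool.Agent.Y920.JB

/-- The group is the disjoint union of a Haar meager F_σ set and a Haar null G_δ set. -/
def Dec (G : Type) [AddCommGroup G] [TopologicalSpace G] [MeasurableSpace G] : Prop :=
  ∃ B : Set G, IsGδ B ∧ HaarMeager Bᶜ ∧ HaarNull B

/-- from an open subgroup to the group -/
def S_COS1 : Prop :=
  ∀ (G : Type) [TopologicalSpace G] [AddCommGroup G] [IsTopologicalAddGroup G]
    [PolishSpace G] [MeasurableSpace G] [BorelSpace G] (K : AddSubgroup G),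
    IsOpen (K : Set G) → Dec K → Dec G

/-- from the group to an open subgroup -/
def S_COS2 : Prop :=
  ∀ (G : Type) [TopologicalSpace G] [AddCommGroup G] [IsTopologicalAddGroup G]
    [PolishSpace G] [MeasurableSpace G] [BorelSpace G] (K : AddSubgroup G),
    IsOpen (K : Set G) → Dec G → Dec K

/-- extension of characters from open subgroups -/
def S_EXT : Prop :=
  ∀ (G : Type) [TopologicalSpace G] [AddCommGroup G] [IsTopologicalAddGroup G]
    (K : AddSubgroup G), IsOpen (K : Set G) → ∀ χ : K →+ UnitAddCircle, Continuous χ →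
    ∃ ψ : G →+ UnitAddCircle, Continuous ψ ∧ ∀ k : K, ψ (k : G) = χ k

end Pool.Agent.Y920.JB
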