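import Pool.Agent.Y920.JB.Stm3

set_option autoImplicit false

open Topology Filter MeasureTheory Finset

namespace Pool.Agent.Y920.JB

/-- The question for the group `G`: it is the union of a Haar meager set and a Haar null set. -/
def Dec0 (G : Type) [AddCommGroup G] [TopologicalSpace G] [MeasurableSpace G] : Prop :=
  ∃ A B : Set G, A ∪ B = Set.univ ∧ HaarMeager A ∧ HaarNull B

/-- from an open subgroup to the group -/
def S_COS1p : Prop :=
  ∀ (G : Type) [TopologicalSpace G] [AddCommGroup G] [IsTopologicalAddGroup G]
    [PolishSpace G] [MeasurableSpace G] [BorelSpace G] (K : AddSubgroup G),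
    IsOpen (K : Set G) → Dec0 K → Dec0 G

/-- from the group to an open subgroup -/
def S_COS2p : Prop :=
  ∀ (G : Type) [TopologicalSpace G] [AddCommGroup G] [IsTopologicalAddGroup G]
    [PolishSpace G] [MeasurableSpace G] [BorelSpace G] (K : AddSubgroup G),
    IsOpen (K : Set G) → Dec0 G → Dec0 K

end Pool.Agent.Y920.JB
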